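import Pool.Agent.W69.MH.Stm

/-!
# The primes needed for the composition
-/

set_option autoImplicit false

open Finset

namespace Pool.Agent.W806.MH

open Pool.Agent.W69.MH

/-- A residue class contributes little to the harmonic sum. -/
theorem class_sum (z M X r : ℕ) (hz : 1 ≤ z) (hM : 1 ≤ M) :
    ∑ n ∈ (Ioc z X).filter (fun n => n ≡ r [MOD M]), (1 : ℝ) / n ≤
      1 / z + (1 + Real.log X) / M := by
  have hMr : (0 : ℝ) < M := by exact_mod_cast hM
  have hzr : (0 : ℝ) < z := by exact_mod_cast hz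
  -- split according to `n / M = 0`
  have h1 : ∑ n ∈ (Ioc z X).filter (fun n => n ≡ r [MOD M]), (1 : ℝ) / n ≤
      ∑ n ∈ (Ioc z X).filter (fun n => n ≡ r [MOD M]),
        (if n / M = 0 then (1 : ℝ) / z else 1 / ((n / M : ℕ) * M)) := by
    refine Finset.sum_le_sum fun n hn => ?_
    have hn1 := (mem_Ioc.1 (mem_filter.1 hn).1).1
    split_ifs with h
    · exact one_div_le_one_div_of_le hzr (by exact_mod_cast hn1.le)
    · have h2 : 0 < n / M := Nat.pos_of_ne_zero h
      refine one_div_le_one_div_of_le (by positivity) ?_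
      exact_mod_cast Nat.div_mul_le_self n M
  have hinj : Set.InjOn (fun n => n / M) ((Ioc z X).filter (fun n => n ≡ r [MOD M]) : Set ℕ) := by
    intro a ha b hb hab
    have ha' := (mem_filter.1 (mem_coe.1 ha)).2
    have hb' := (mem_filter.1 (mem_coe.1 hb)).2
    have hab' : a / M = b / M := hab
    have h3 : a % M = b % M := ha'.trans hb'.symm
    rw [← Nat.div_add_mod a M, ← Nat.div_add_mod b M, hab', h3]
  have h2 : ∑ n ∈ (Ioc z X).filter (fun n => n ≡ r [MOD M]),
        (if n / M = 0 then (1 : ℝ) / z else 1 / ((n / M : ℕ) * M)) =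
      ∑ i ∈ ((Ioc z X).filter (fun n => n ≡ r [MOD M])).image (fun n => n / M),
        (if i = 0 then (1 : ℝ) / z else 1 / ((i : ℕ) * M)) := by
    rw [Finset.sum_image hinj]
  have h3 : ((Ioc z X).filter (fun n => n ≡ r [MOD M])).image (fun n => n / M) ⊆
      range (X + 1) := by
    intro i hi
    obtain ⟨n, hn, rfl⟩ := mem_image.1 hi
    have := (mem_Ioc.1 (mem_filter.1 hn).1).2
    exact mem_range.2 (Nat.lt_succ_of_le ((Nat.div_le_self _ _).trans this))
  have h4 : ∑ i ∈ ((Ioc z X).filter (fun n => n ≡ r [MOD M])).image (fun n => n / M),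
        (if i = 0 then (1 : ℝ) / z else 1 / ((i : ℕ) * M)) ≤
      ∑ i ∈ range (X + 1), (if i = 0 then (1 : ℝ) / z else 1 / ((i : ℕ) * M)) := by
    refine Finset.sum_le_sum_of_subset_of_nonneg h3 fun i _ _ => ?_
    split_ifs <;> positivity
  have h5 : ∑ i ∈ range (X + 1), (if i = 0 then (1 : ℝ) / z else 1 / ((i : ℕ) * M)) =
      1 / z + (∑ i ∈ range X, (1 : ℝ) / (i + 1)) / M := by
    rw [Finset.sum_range_succ', add_comm]
    simp only [if_true, Nat.succ_ne_zero, if_false]
    congr 1
    rw [Finset.sum_div]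
    refine Finset.sum_congr rfl fun i _ => ?_
    push_cast
    rw [div_div]
  have h6 : ∑ i ∈ range X, (1 : ℝ) / (i + 1) ≤ 1 + Real.log X := by
    have h7 := harmonic_le_one_add_log X
    have h8 : ((harmonic X : ℚ) : ℝ) = ∑ i ∈ range X, (1 : ℝ) / (i + 1) := by
      unfold harmonic
      push_cast
      simp only [one_div]
    rw [h8] at h7
    exact h7
  calc _ ≤ _ := h1
    _ = _ := h2
    _ ≤ _ := h4
    _ = _ := h5
    _ ≤ 1 / z + (1 + Real.log X) / M :=
      add_le_add_right (div_le_div_of_nonneg_right h6 hMr.le) _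

theorem gen (hPR : St_PR) : St_GEN := by
  obtain ⟨K, c, hK, hc, hPR⟩ := hPR
  refine ⟨K, hK, fun B => ?_⟩
  obtain ⟨z0, hz0⟩ := hPR (B + 2)
  -- large z
  have t1 : ∀ᶠ z : ℕ in Filter.atTop, Real.log z ^ 32 ≤ (z : ℝ) := by
    have h := (Real.isLittleO_pow_log_id_atTop (n := 32)).bound (c := 1) one_pos
    have h2 := tendsto_natCast_atTop_atTop (R := ℝ) |>.eventually h
    filter_upwards [h2] with z hz
    simp only [id, one_mul, Real.norm_eq_abs] at hz
    exact (le_abs_self _).trans (hz.trans (le_of_eq (abs_of_nonneg (Nat.cast_nonneg z))))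
  have tlog : Filter.Tendsto (fun z : ℕ => Real.log z) Filter.atTop Filter.atTop :=
    Real.tendsto_log_atTop.comp tendsto_natCast_atTop_atTop
  have t2 := tlog.eventually_ge_atTop 1
  have t3 := tlog.eventually_gt_atTop (2 * (1 + K) / c)
  have t4 : ∀ᶠ z : ℕ in Filter.atTop, 2 / c < Real.sqrt z :=
    (Real.tendsto_sqrt_atTop.comp tendsto_natCast_atTop_atTop).eventually_gt_atTop _
  obtain ⟨z1, hz1⟩ := Filter.eventually_atTop.1 (t1.and (t2.and (t3.and t4)))
  refine ⟨max z0 z1, fun z hz m k d u hm hk hd hdB hm16 hu => ?_⟩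
  obtain ⟨e1, e2, e3, e4⟩ := hz1 z ((le_max_right _ _).trans hz)
  have hzz := hz0 z ((le_max_left _ _).trans hz)
  have hd0 : 0 < d := hd.pos
  have hm4 : 4 ≤ m := by
    rw [hm]
    calc 4 = 2 ^ 2 * 1 := by norm_num
      _ ≤ 2 ^ k * d := Nat.mul_le_mul (Nat.pow_le_pow_right (by norm_num) hk) hd0
  have hmeven : 2 ∣ m := by
    rw [hm]
    exact Dvd.dvd.mul_right (dvd_pow_self 2 (by omega)) d
  have hz1' : 1 ≤ z := by
    have : 1 ≤ m ^ 16 := Nat.one_le_pow _ _ (by omega)
    omega
  have hL0 : 0 < Real.log z := lt_of_lt_of_le one_pos e2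
  -- existence of primes
  have ex : ∀ k' d' b : ℕ, Odd d' → (d' : ℝ) ≤ Real.log z ^ (B + 2) → (2 ^ k' * d') ^ 8 ≤ z →
      b.Coprime (2 ^ k' * d') → ∃ q : ℕ, q.Prime ∧ z < q ∧ q ≤ z ^ K ∧ q ≡ b [MOD 2 ^ k' * d'] := by
    intro k' d' b h1 h2 h3 h4
    have h5 := hzz k' d' b h1 h2 h3 h4
    have h6 : 0 < c / ((2 ^ k' * d').totient : ℝ) := by
      have : 0 < (2 ^ k' * d').totient := Nat.totient_pos.2 (Nat.mul_pos (by positivity) h1.pos)
      positivity
    have h7 := h6.trans_le h5
    obtain ⟨q, hq⟩ := Finset.nonempty_of_sum_ne_zero h7.ne'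
    obtain ⟨hq1, hq2, hq3⟩ := mem_filter.1 hq
    exact ⟨q, hq2, (mem_Ioc.1 hq1).1, (mem_Ioc.1 hq1).2, hq3⟩
  have hdB2 : (d : ℝ) ≤ Real.log z ^ (B + 2) :=
    hdB.trans (pow_le_pow_right₀ e2 (by omega))
  have hm8 : m ^ 8 ≤ z := (Nat.pow_le_pow_right (by omega) (by norm_num)).trans hm16
  refine ⟨?_, ?_, ?_⟩
  · obtain ⟨b, -, hb⟩ := Nat.exists_mul_mod_eq_one_of_coprime hu (by omega)
    have hbc : b.Coprime m := by
      have h1 : (u * b) ≡ 1 [MOD m] := by
        change u * b % m = 1 % m
        rw [hb, Nat.mod_eq_of_lt (by omega)]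
      have h2 : Nat.gcd (u * b) m = 1 := by rw [h1.gcd_eq, Nat.gcd_one_left]
      exact Nat.Coprime.coprime_mul_left h2
    obtain ⟨p, hp1, hp2, hp3, hp4⟩ := ex k d b hd hdB2 (by rw [← hm]; exact hm8)
      (by rw [← hm]; exact hbc)
    rw [← hm] at hp4
    refine ⟨p, hp1, hp2, hp3, ?_⟩
    have h3 : p * u ≡ b * u [MOD m] := hp4.mul_right u
    rw [show p * u % m = b * u % m from h3, mul_comm b u, hb]
  · obtain ⟨q, hq1, hq2, hq3, hq4⟩ := ex k d u hd hdB2 (by rw [← hm]; exact hm8)
      (by rw [← hm]; exact hu)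
    rw [← hm] at hq4
    exact ⟨q, hq1, hq2, hq3, hq4⟩
  · intro l q0 hl hq0 hq0z hq0K hq0u
    have hq0c : q0.Coprime m := by
      have h1 : q0 ≡ u [MOD m] := hq0u
      exact (h1.gcd_eq).trans hu
    by_cases hlz : (l : ℝ) ≤ Real.log z ^ 2
    · rcases hl.eq_two_or_odd' with h2 | hodd
      · -- l = 2
        subst h2
        have hc2 : (q0 + m).Coprime (2 ^ (k + 1) * d) := by
          have e : 2 ^ (k + 1) * d = 2 * m := by rw [hm, pow_succ]; ring
          rw [e]
          refine Nat.Coprime.mul_right ?_ ?_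
          · rw [Nat.coprime_two_right]
            have h3 : Odd q0 := by
              rw [← Nat.coprime_two_right]
              exact Nat.Coprime.coprime_dvd_right hmeven hq0c
            exact h3.add_even (even_iff_two_dvd.2 hmeven)
          · exact (Nat.coprime_add_self_left).2 hq0c
        have h8 : (2 ^ (k + 1) * d) ^ 8 ≤ z := by
          have e : 2 ^ (k + 1) * d = 2 * m := by rw [hm, pow_succ]; ring
          rw [e, mul_pow]
          calc 2 ^ 8 * m ^ 8 ≤ m ^ 8 * m ^ 8 := Nat.mul_le_mul_right _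
                (Nat.pow_le_pow_left (by omega) 8)
            _ = m ^ 16 := by ring
            _ ≤ z := hm16
        obtain ⟨q, hq1, hq2, hq3, hq4⟩ := ex (k + 1) d (q0 + m) hd hdB2 h8 hc2
        have e : 2 ^ (k + 1) * d = m * 2 := by rw [hm, pow_succ]; ring
        rw [e] at hq4
        have hq5 : q ≡ q0 + m [MOD m] := hq4.of_mul_right 2
        have hq6 : q ≡ q0 [MOD m] := by
          have : q0 + m ≡ q0 + 0 [MOD m] := Nat.ModEq.add_left q0 (by simp [Nat.ModEq])
          simpa using hq5.trans this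
        refine ⟨q, hq1, hq2, hq3, hq6.trans hq0u, ?_⟩
        intro hdvd
        have h9 : ((m * 2 : ℕ) : ℤ) ∣ ((q0 + m : ℕ) : ℤ) - (q : ℤ) := hq4.dvd
        have h10 : ((m * 2 : ℕ) : ℤ) ∣ (m : ℤ) := by
          have := dvd_add h9 hdvd
          have e5 : ((q0 + m : ℕ) : ℤ) - (q : ℤ) + ((q : ℤ) - q0) = m := by push_cast; ring
          rwa [e5] at this
        have h11 : m * 2 ∣ m := by exact_mod_cast h10
        have := Nat.le_of_dvd (by omega) h11
        omega
      · -- l odd
        have hl3 : 3 ≤ l := by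
          have := hl.two_le
          rcases hodd with ⟨j, hj⟩
          omega
        have hdl : Odd (d * l) := hd.mul hodd
        have hdlB : ((d * l : ℕ) : ℝ) ≤ Real.log z ^ (B + 2) := by
          push_cast
          rw [pow_add]
          exact mul_le_mul hdB hlz (Nat.cast_nonneg _) (by positivity)
        have h8 : (m * l) ^ 8 ≤ z := by
          have h9 : ((l : ℝ)) ^ 16 ≤ z := by
            calc (l : ℝ) ^ 16 ≤ (Real.log z ^ 2) ^ 16 := pow_le_pow_left₀ (Nat.cast_nonneg _) hlz 16
              _ = Real.log z ^ 32 := by ring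
              _ ≤ z := e1
          have h10 : l ^ 16 ≤ z := by exact_mod_cast h9
          have h11 : ((m * l) ^ 8) ^ 2 ≤ z ^ 2 := by
            calc ((m * l) ^ 8) ^ 2 = m ^ 16 * l ^ 16 := by ring
              _ ≤ z * z := Nat.mul_le_mul hm16 h10
              _ = z ^ 2 := by ring
          exact (Nat.pow_le_pow_iff_left (by norm_num)).1 h11
        -- choice of the class
        obtain ⟨i, hi1, hi2, hi3⟩ : ∃ i : ℕ, 1 ≤ i ∧ i ≤ 2 ∧ (q0 + i * m).Coprime (m * l) := by
          have hcm : ∀ i : ℕ, (q0 + i * m).Coprime m := by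
            intro i
            exact (Nat.coprime_add_mul_right_left q0 m i).2 hq0c
          by_cases hlm : l ∣ m
          · refine ⟨1, le_rfl, by norm_num, ?_⟩
            refine Nat.Coprime.mul_right (hcm 1) ?_
            exact Nat.Coprime.coprime_dvd_right hlm (hcm 1)
          · by_cases h12 : l ∣ q0 + 1 * m
            · refine ⟨2, by norm_num, le_rfl, ?_⟩
              refine Nat.Coprime.mul_right (hcm 2) ?_
              rw [Nat.coprime_comm, hl.coprime_iff_not_dvd]
              intro h13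
              apply hlm
              have h14 : q0 + 2 * m = (q0 + 1 * m) + m := by ring
              rw [h14] at h13
              exact (Nat.dvd_add_right h12).1 h13
            · refine ⟨1, le_rfl, by norm_num, ?_⟩
              refine Nat.Coprime.mul_right (hcm 1) ?_
              rw [Nat.coprime_comm, hl.coprime_iff_not_dvd]
              exact h12
        have e : 2 ^ k * (d * l) = m * l := by rw [hm]; ring
        obtain ⟨q, hq1, hq2, hq3, hq4⟩ := ex k (d * l) (q0 + i * m) hdl hdlB
          (by rw [e]; exact h8) (by rw [e]; exact hi3)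
        rw [e] at hq4
        have hq5 : q ≡ q0 + i * m [MOD m] := hq4.of_mul_right l
        have hq6 : q ≡ q0 [MOD m] := by
          have : q0 + i * m ≡ q0 + 0 [MOD m] := Nat.ModEq.add_left q0 (by simp [Nat.ModEq])
          simpa using hq5.trans this
        refine ⟨q, hq1, hq2, hq3, hq6.trans hq0u, ?_⟩
        intro hdvd
        have h9 : ((m * l : ℕ) : ℤ) ∣ ((q0 + i * m : ℕ) : ℤ) - (q : ℤ) := hq4.dvd
        have h10 : ((m * l : ℕ) : ℤ) ∣ ((m * i : ℕ) : ℤ) := by
          have := dvd_add h9 hdvd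
          have e5 : ((q0 + i * m : ℕ) : ℤ) - (q : ℤ) + ((q : ℤ) - q0) = ((m * i : ℕ) : ℤ) := by
            push_cast; ring
          rwa [e5] at this
        have h11 : m * l ∣ m * i := by exact_mod_cast h10
        have h12 : l ∣ i := Nat.dvd_of_mul_dvd_mul_left (by omega) h11
        have := Nat.le_of_dvd (by omega) h12
        omega
    · -- l large
      rw [not_le] at hlz
      by_contra hcon
      have hall : ∀ q : ℕ, q.Prime → z < q → q ≤ z ^ K → q % m = u % m →
          ((m * l : ℕ) : ℤ) ∣ (q : ℤ) - (q0 : ℤ) := by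
        intro q h1 h2 h3 h4
        by_contra h5
        exact hcon ⟨q, h1, h2, h3, h4, h5⟩
      have h5 := hzz k d u hd hdB2 (by rw [← hm]; exact hm8) (by rw [← hm]; exact hu)
      rw [← hm] at h5
      have hl0 : 0 < l := hl.pos
      have h6 : ∑ p ∈ (Ioc z (z ^ K)).filter (fun p => p.Prime ∧ p ≡ u [MOD m]), (1 : ℝ) / p ≤
          ∑ n ∈ (Ioc z (z ^ K)).filter (fun n => n ≡ q0 [MOD m * l]), (1 : ℝ) / n := by
        refine Finset.sum_le_sum_of_subset_of_nonneg ?_ fun i _ _ => by positivity
        intro p hp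
        obtain ⟨hp1, hp2, hp3⟩ := mem_filter.1 hp
        refine mem_filter.2 ⟨hp1, ?_⟩
        have h7 := hall p hp2 (mem_Ioc.1 hp1).1 (mem_Ioc.1 hp1).2 hp3
        exact (Nat.modEq_iff_dvd.2 h7).symm
      have h7 := class_sum z (m * l) (z ^ K) q0 hz1' (Nat.mul_pos (by omega) hl0)
      have hmr : (0 : ℝ) < m := by exact_mod_cast (by omega : 0 < m)
      have hlr : (0 : ℝ) < l := by exact_mod_cast hl0
      have hzr : (0 : ℝ) < z := by exact_mod_cast hz1'
      have h8 : c / m ≤ c / (m.totient : ℝ) := by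
        have h9 : 0 < m.totient := Nat.totient_pos.2 (by omega)
        exact div_le_div_of_nonneg_left hc.le (by exact_mod_cast h9)
          (by exact_mod_cast Nat.totient_le m)
      have h9 : (1 + Real.log ((z ^ K : ℕ) : ℝ)) / ((m * l : ℕ) : ℝ) ≤
          (1 + K) / Real.log z / m := by
        have e5 : Real.log ((z ^ K : ℕ) : ℝ) = K * Real.log z := by
          push_cast
          rw [Real.log_pow]
        rw [e5]
        push_cast
        rw [div_div, div_le_div_iff₀ (by positivity) (by positivity)]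
        have e6 : (1 + K * Real.log z) ≤ (1 + K) * Real.log z := by
          nlinarith
        have e7 : (Real.log z) ^ 2 ≤ l := hlz.le
        calc (1 + K * Real.log z) * (Real.log z * m) ≤
              ((1 + K) * Real.log z) * (Real.log z * m) :=
              mul_le_mul_of_nonneg_right e6 (by positivity)
          _ = (1 + K) * m * (Real.log z) ^ 2 := by ring
          _ ≤ (1 + K) * m * l := mul_le_mul_of_nonneg_left e7 (by positivity)
          _ = (1 + K) * (m * l) := by ring
      have h10 : c / m ≤ 1 / z + (1 + K) / Real.log z / m :=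
        h8.trans (h5.trans (h6.trans (h7.trans (add_le_add_right h9 _))))
      have h11 : c ≤ m / z + (1 + K) / Real.log z := by
        have e5 := mul_le_mul_of_nonneg_right h10 hmr.le
        have e6 : c / m * m = c := by field_simp
        have e7 : (1 / (z : ℝ) + (1 + K) / Real.log z / m) * m =
            m / z + (1 + K) / Real.log z := by field_simp
        rw [e6, e7] at e5
        exact e5
      have h12 : (1 + K) / Real.log z < c / 2 := by
        rw [div_lt_iff₀ hL0]
        rw [div_lt_iff₀ hc] at e3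
        linarith
      have h13 : (m : ℝ) / z < c / 2 := by
        have e5 : (m : ℝ) ≤ Real.sqrt z := by
          apply Real.le_sqrt_of_sq_le
          have : m ^ 2 ≤ z := (Nat.pow_le_pow_right (by omega) (by norm_num)).trans hm16
          exact_mod_cast this
        have hs : 0 < Real.sqrt z := Real.sqrt_pos.2 hzr
        have e6 : (m : ℝ) / z ≤ 1 / Real.sqrt z := by
          rw [div_le_div_iff₀ hzr hs, one_mul]
          calc (m : ℝ) * Real.sqrt z ≤ Real.sqrt z * Real.sqrt z :=
                mul_le_mul_of_nonneg_right e5 hs.le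
            _ = z := Real.mul_self_sqrt hzr.le
        refine e6.trans_lt ?_
        rw [div_lt_iff₀ hs]
        rw [div_lt_iff₀ hc] at e4
        linarith
      linarith

end Pool.Agent.W806.MH
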